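import Pool.Agent.Q131.Absorb

/-!
# MP_e721cf_gt: fixed-point-free free groups of piecewise isometries on bounded hyperbolic sets

`ℍ` is Mathlib's hyperbolic plane (upper half-plane model, hyperbolic metric).
-/

namespace Pool.Agent.Results.MP_e721cf_gt.FreeActionOnQuadrangle

open UpperHalfPlane

/-- `f`, a bijection of `X ⊆ ℍ`, is a piecewise isometry of `X`: there is a partition of `X`
into finitely many pieces `P 0, …, P (n-1)` and isometries `g i` of `ℍ` such that `f = g i` on
`P i`.  No regularity is imposed on the pieces. -/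
def IsPiecewiseIsometry (X : Set ℍ) (f : Equiv.Perm X) : Prop :=
  ∃ (n : ℕ) (P : Fin n → Set ℍ) (g : Fin n → (ℍ ≃ᵢ ℍ)),
    (⋃ i, P i) = X ∧ Pairwise (fun i j => Disjoint (P i) (P j)) ∧
    ∀ i, ∀ x : X, (x : ℍ) ∈ P i → ((f x : X) : ℍ) = g i x

/-- Two bijections are independent if they freely generate a free group of rank `2`. -/
def Independent {X : Set ℍ} (φ ψ : Equiv.Perm X) : Prop :=
  Function.Injective (FreeGroup.lift ![φ, ψ] : FreeGroup (Fin 2) →* Equiv.Perm X)

/-- A group of bijections acts without nontrivial fixed points. -/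
def NoNontrivialFixedPoints {X : Set ℍ} (G : Subgroup (Equiv.Perm X)) : Prop :=
  ∀ g ∈ G, (∃ x, g x = x) → g = 1

open Pool.Agent.Q131.PP Pool.Agent.Q131.Model Pool.Agent.Q131.Exch Pool.Agent.Q131.Absorb
open Matrix

lemma pi_of_finite (X : Set ℍ) (f : Equiv.Perm X) (S : Set (ℍ ≃ᵢ ℍ)) (hS : S.Finite)
    (h : ∀ x, ∃ g ∈ S, ((f x : X) : ℍ) = g x) : IsPiecewiseIsometry X f := by
  obtain ⟨n, g, _, hg⟩ := hS.fin_param
  refine ⟨n, fun i => {z | ∃ hz : z ∈ X, ((f ⟨z, hz⟩ : X) : ℍ) = g i z ∧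
    ∀ j < i, ((f ⟨z, hz⟩ : X) : ℍ) ≠ g j z}, g, ?_, ?_, ?_⟩
  · ext z
    simp only [Set.mem_iUnion, Set.mem_ofPred_eq]
    constructor
    · rintro ⟨i, hz, _⟩; exact hz
    · intro hz
      obtain ⟨k, hk, hk2⟩ := h ⟨z, hz⟩
      rw [← hg] at hk
      obtain ⟨i, rfl⟩ := hk
      have hne : {i | ((f ⟨z, hz⟩ : X) : ℍ) = g i z}.Nonempty := ⟨i, hk2⟩
      obtain ⟨m, hm, hm2⟩ := (wellFounded_lt (α := Fin n)).has_min _ hne
      exact ⟨m, hz, hm, fun j hj hj2 => hm2 j hj2 hj⟩
  · intro i j hij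
    rw [Set.disjoint_left]
    rintro z ⟨hz, h1, h2⟩ ⟨_, h3, h4⟩
    rcases lt_or_gt_of_ne hij with h5 | h5
    · exact h4 i h5 h1
    · exact h2 j h5 h3
  · rintro i x ⟨hz, h1, _⟩
    exact h1

/-- the quadrangle in the half-plane -/
def XX : Set ℍ := {z | fromH z ∈ Q 1}

/-- coordinates on the quadrangle -/
noncomputable def eQ : XX ≃ Q 1 where
  toFun z := ⟨fromH z.1, z.2⟩
  invFun p := ⟨toH p.1, by change fromH (toH p.1) ∈ Q 1; rw [fromH_toH]; exact p.2⟩
  left_inv z := Subtype.ext (toH_fromH z.1)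
  right_inv p := Subtype.ext (fromH_toH p.1)

lemma XX_bounded : Bornology.IsBounded XX := by
  rw [Metric.isBounded_iff_subset_closedBall UpperHalfPlane.I]
  refine ⟨3, ?_⟩
  intro z hz
  rw [Metric.mem_closedBall]
  by_contra h
  push Not at h
  have h1 : Real.cosh 3 < Real.cosh (dist z UpperHalfPlane.I) := by
    rw [Real.cosh_lt_cosh, abs_of_pos (by norm_num), abs_of_nonneg dist_nonneg]; exact h
  rw [UpperHalfPlane.cosh_dist'] at h1
  have h2 : ((z.re - (UpperHalfPlane.I).re) ^ 2 + z.im ^ 2 + (UpperHalfPlane.I).im ^ 2) /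
      (2 * z.im * (UpperHalfPlane.I).im) = ZZ (fromH z) := by
    rw [ZZ_fromH]; simp
  rw [h2] at h1
  have h3 : ZZ (fromH z) ^ 2 ≤ 3 := by
    rw [ZZ_sq]
    obtain ⟨a1, a2, a3, a4⟩ := hz
    nlinarith
  have h4 : (2:ℝ) ≤ Real.cosh 3 := by
    rw [Real.cosh_eq]
    have := Real.add_one_le_exp (3:ℝ)
    have := Real.exp_pos (-3:ℝ)
    linarith
  have := ZZ_pos (fromH z)
  nlinarith

lemma fromH_continuous : Continuous fromH := by
  unfold fromH
  have h1 : Continuous (fun z : ℍ => z.re) := UpperHalfPlane.continuous_re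
  have h2 : Continuous (fun z : ℍ => z.im) := UpperHalfPlane.continuous_im
  refine Continuous.prodMk ?_ ?_
  · apply Continuous.div
    · exact ((h1.pow 2).add (h2.pow 2)).sub continuous_const
    · exact continuous_const.mul h2
    · intro z; have := z.im_pos; positivity
  · apply Continuous.div h1 h2
    intro z; exact z.im_pos.ne'

lemma XX_interior : (interior XX).Nonempty := by
  refine ⟨UpperHalfPlane.I, ?_⟩
  rw [mem_interior]
  refine ⟨fromH ⁻¹' (Set.Ioo (-1) 1 ×ˢ Set.Ioo (-1) 1), ?_, ?_, ?_⟩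
  · rintro z ⟨⟨h1, h2⟩, h3, h4⟩
    exact ⟨h1.le, h2, h3.le, h4⟩
  · exact (isOpen_Ioo.prod isOpen_Ioo).preimage fromH_continuous
  · have : fromH UpperHalfPlane.I = (0, 0) := by unfold fromH; simp
    rw [Set.mem_preimage, this]
    simp

/-- **MP_e721cf_gt, Q1: yes.**  There is a bounded subset `X` of the hyperbolic plane with nonempty
interior carrying two independent piecewise isometries `φ, ψ` such that the group generated by
`φ, ψ` acts on `X` without nontrivial fixed points. -/
theorem result : ∃ X : Set ℍ, Bornology.IsBounded X ∧ (interior X).Nonempty ∧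
    ∃ φ ψ : Equiv.Perm X, IsPiecewiseIsometry X φ ∧ IsPiecewiseIsometry X ψ ∧
      Independent φ ψ ∧ NoNontrivialFixedPoints (Subgroup.closure {φ, ψ}) := by
  obtain ⟨f, hf, hfree⟩ := model
  refine ⟨XX, XX_bounded, XX_interior, ?_⟩
  set F : Bool → Equiv.Perm XX := fun b => (eQ.trans (f b)).trans eQ.symm with hF
  have hFw : ∀ w : FreeGroup Bool, w ≠ 1 → ∀ x, FreeGroup.lift F w x ≠ x := by
    intro w hw x hx
    rw [hF, lift_conj] at hx
    have := congrArg eQ hx
    rw [Equiv.apply_symm_apply] at this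
    exact hfree w hw _ this
  have hpi : ∀ b, IsPiecewiseIsometry XX (F b) := by
    intro b
    obtain ⟨S, hS, hS'⟩ := hf b
    apply pi_of_finite XX (F b) ((fun g => IsometryEquiv.constSMul g) '' S) (hS.image _)
    intro x
    obtain ⟨g, hg, hg'⟩ := hS' (eQ x)
    refine ⟨_, ⟨g, hg, rfl⟩, ?_⟩
    change toH ((f b (eQ x) : Q 1) : ℝ × ℝ) = g • (x : ℍ)
    rw [hg', toH_gact]
    congr 1
    exact toH_fromH x.1
  -- the lift from `Fin 2`
  set e : Fin 2 → Bool := ![true, false] with he
  have hlift : ∀ w : FreeGroup (Fin 2), FreeGroup.lift ![F true, F false] w =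
      FreeGroup.lift F (FreeGroup.map e w) := by
    intro w
    have : (FreeGroup.lift ![F true, F false] : FreeGroup (Fin 2) →* Equiv.Perm XX) =
        (FreeGroup.lift F).comp (FreeGroup.map e) := by
      ext i : 1
      fin_cases i <;> simp [he]
    rw [this]; rfl
  have heinj : Function.Injective e := by
    intro i j hij
    fin_cases i <;> fin_cases j <;> simp [he] at hij ⊢
  have hmap : Function.Injective (FreeGroup.map e) := FreeGroup.map_injective heinj
  have hkey : ∀ w : FreeGroup (Fin 2), w ≠ 1 → ∀ x,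
      FreeGroup.lift ![F true, F false] w x ≠ x := by
    intro w hw x
    rw [hlift]
    apply hFw
    intro h1
    apply hw
    apply hmap
    rw [h1, map_one]
  have hne : Nonempty XX := ⟨⟨UpperHalfPlane.I, by
    have := XX_interior
    have h2 : fromH UpperHalfPlane.I = (0, 0) := by unfold fromH; simp
    change fromH UpperHalfPlane.I ∈ Q 1
    rw [h2]; exact ⟨by norm_num, by norm_num, by norm_num, by norm_num⟩⟩⟩
  refine ⟨F true, F false, hpi _, hpi _, ?_, ?_⟩
  · unfold Independent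
    rw [injective_iff_map_eq_one]
    intro w hw
    by_contra hw'
    obtain ⟨x⟩ := hne
    apply hkey w hw' x
    rw [hw]; rfl
  · intro g hg hx
    obtain ⟨x, hx⟩ := hx
    have hrange : Subgroup.closure {F true, F false} ≤
        (FreeGroup.lift ![F true, F false] : FreeGroup (Fin 2) →* Equiv.Perm XX).range := by
      rw [Subgroup.closure_le]
      rintro k (rfl | rfl)
      · exact ⟨FreeGroup.of 0, by simp⟩
      · exact ⟨FreeGroup.of 1, by simp⟩
    obtain ⟨w, rfl⟩ := hrange hg
    by_cases hw : w = 1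
    · rw [hw, map_one]
    · exact absurd hx (hkey w hw x)

end Pool.Agent.Results.MP_e721cf_gt.FreeActionOnQuadrangle
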